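import Pool.Agent.Helper77.OF4.St

set_option autoImplicit false

namespace Pool.Agent.Helper42.OF4.CR

open Equiv Equiv.Perm Pool.Agent.Helper35.PM Pool.Agent.Helper77.HY Pool.Agent.Helper77.OF4

theorem telescope (m : ℕ) (a : ℕ → ZMod 2) :
    ∑ i ∈ Finset.range m, (a i + a (i + 1)) = a 0 + a m := by
  induction m with
  | zero =>
    rw [Finset.range_zero, Finset.sum_empty]
    exact (zadd_self _).symm
  | succ m ih =>
    rw [Finset.sum_range_succ, ih]
    have := zadd_self (a m)
    linear_combination this

theorem main (hSep : Pool.Agent.Helper35.PM.StSep) : StCr := by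
  intro V D _ M d j k l hF hj hjk hkl hln m m' w w' hw0 hwm hw hw0' hwm' hw'
  classical
  have : Fintype D := Fintype.ofFinite D
  by_contra hcon
  push Not at hcon
  -- distinct iterates
  have hinj : ∀ a b : ℕ, a < Function.minimalPeriod M.φ d → b < Function.minimalPeriod M.φ d →
      (M.φ ^ a) d = (M.φ ^ b) d → a = b := by
    intro a b ha hb hab
    rw [Perm.coe_pow, Perm.coe_pow] at hab
    exact Function.iterate_injOn_Iio_minimalPeriod (Set.mem_Iio.mpr ha) (Set.mem_Iio.mpr hb) hab
  have hd13 : M.t d ≠ M.t ((M.φ ^ k) d) := by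
    intro h
    have h1 : d = (M.φ ^ k) d := hF d ((M.φ ^ k) d) ⟨k, by rw [zpow_natCast]⟩ h
    have h2 := hinj 0 k (by omega) (by omega) (by rw [pow_zero]; exact h1)
    omega
  -- the darts of the walk
  let A : ℕ → D := fun i => if h : i < m then (hw i h).choose else d
  have hA : ∀ i < m, M.t (A i) = w i ∧ M.t (M.ι (A i)) = w (i + 1) := by
    intro i hi
    show M.t (if h : i < m then (hw i h).choose else d) = w i ∧
      M.t (M.ι (if h : i < m then (hw i h).choose else d)) = w (i + 1)
    rw [dif_pos hi]
    exact (hw i hi).choose_spec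
  let x : D → ZMod 2 := fun e => ∑ i ∈ Finset.range m,
    ((if e = A i then (1 : ZMod 2) else 0) + (if e = M.ι (A i) then (1 : ZMod 2) else 0))
  have hxι : ∀ e, x (M.ι e) = x e := by
    intro e
    refine Finset.sum_congr rfl (fun i _ => ?_)
    have h1 : (M.ι e = A i) ↔ (e = M.ι (A i)) := by
      constructor
      · intro h; rw [← h, M.inv]
      · intro h; rw [h, M.inv]
    have h2 : (M.ι e = M.ι (A i)) ↔ (e = A i) :=
      ⟨fun h => M.inv.injective h, fun h => by rw [h]⟩
    simp only [h1, h2]
    rw [add_comm]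
  have hx0 : ∀ e, (∀ i ≤ m, M.t e ≠ w i) → x e = 0 := by
    intro e he
    refine Finset.sum_eq_zero (fun i hi => ?_)
    have hi' := Finset.mem_range.mp hi
    have h1 : e ≠ A i := by
      intro h
      exact he i (by omega) (by rw [h]; exact (hA i hi').1)
    have h2 : e ≠ M.ι (A i) := by
      intro h
      exact he (i + 1) (by omega) (by rw [h]; exact (hA i hi').2)
    rw [if_neg h1, if_neg h2, add_zero]
  have hxs : ∀ v, ∑ e ∈ Finset.univ.filter (fun e => M.t e = v), x e =
      if v = M.t d ∨ v = M.t ((M.φ ^ k) d) then 1 else 0 := by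
    intro v
    show ∑ e ∈ Finset.univ.filter (fun e => M.t e = v), ∑ i ∈ Finset.range m,
      ((if e = A i then (1 : ZMod 2) else 0) + (if e = M.ι (A i) then (1 : ZMod 2) else 0)) = _
    rw [Finset.sum_comm]
    have h1 : ∀ i ∈ Finset.range m, ∑ e ∈ Finset.univ.filter (fun e => M.t e = v),
        ((if e = A i then (1 : ZMod 2) else 0) + (if e = M.ι (A i) then (1 : ZMod 2) else 0)) =
        (fun i => if w i = v then (1 : ZMod 2) else 0) i +
          (fun i => if w i = v then (1 : ZMod 2) else 0) (i + 1) := by
      intro i hi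
      have hi' := Finset.mem_range.mp hi
      rw [Finset.sum_add_distrib, Finset.sum_ite_eq', Finset.sum_ite_eq']
      simp only [Finset.mem_filter, Finset.mem_univ, true_and]
      rw [(hA i hi').1, (hA i hi').2]
    rw [Finset.sum_congr rfl h1, telescope, hw0, hwm]
    by_cases h2 : v = M.t d
    · rw [if_pos h2.symm, if_neg (fun h => hd13 (by rw [h, h2])), if_pos (Or.inl h2), add_zero]
    · by_cases h3 : v = M.t ((M.φ ^ k) d)
      · rw [if_neg (fun h => h2 h.symm), if_pos h3.symm, if_pos (Or.inr h3), zero_add]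
      · rw [if_neg (fun h => h2 h.symm), if_neg (fun h => h3 h.symm),
          if_neg (by rintro (h | h); exacts [h2 h, h3 h]), add_zero]
  obtain ⟨y, hyι, hyr, _, _, _, hy1, hy3⟩ := hSep V D M x hxι d ((M.φ ^ k) d) hd13
    ⟨k, by rw [zpow_natCast]⟩ hxs
  have hyj : y ((M.φ ^ j) d) = 0 := by
    apply hy1
    intro i hi
    constructor
    · intro h
      have := hinj (i + 1) k (by omega) (by omega) h
      omega
    · intro h
      have := hinj (i + 1) 0 (by omega) (by omega) (by rw [pow_zero]; exact h)
      omega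
  have hyl : y ((M.φ ^ l) d) = 1 := by
    have h1 : (M.φ ^ l) d = (M.φ ^ (l - k)) ((M.φ ^ k) d) := by
      rw [← Perm.mul_apply, ← pow_add]
      congr 2
      omega
    rw [h1]
    apply hy3
    intro i hi
    have h2 : (M.φ ^ (i + 1)) ((M.φ ^ k) d) = (M.φ ^ (i + 1 + k)) d := by
      rw [← Perm.mul_apply, ← pow_add]
    rw [h2]
    constructor
    · intro h
      have := hinj (i + 1 + k) 0 (by omega) (by omega) (by rw [pow_zero]; exact h)
      omega
    · intro h
      have := hinj (i + 1 + k) k (by omega) (by omega) h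
      omega
  -- constant around vertices off the walk
  have hstep : ∀ e, (∀ i ≤ m, M.t e ≠ w i) → y (M.r e) = y e ∧ y (M.ι e) = y e := by
    intro e he
    have h0 := hx0 e he
    refine ⟨?_, ?_⟩
    · rw [hyr e, h0, add_zero]
      · intro h
        apply he 0 (Nat.zero_le _)
        rw [hw0, ← h, M.t_r]
      · intro h
        apply he m le_rfl
        rw [hwm, ← h, M.t_r]
    · rw [hyι e, h0, add_zero]
  have hvert : ∀ e e', M.t e = M.t e' → (∀ i ≤ m, M.t e ≠ w i) → y e = y e' := by
    intro e e' hee he
    obtain ⟨n, hn⟩ := (M.trans e e' hee).exists_nat_pow_eq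
    rw [← hn]
    clear hn
    induction n with
    | zero => rw [pow_zero]; rfl
    | succ n ih =>
      rw [pow_succ', Perm.mul_apply, (hstep ((M.r ^ n) e) (by
        intro i hi
        rw [M.t_pow]
        exact he i hi)).1]
      exact ih
  have hwalk : ∀ i, i ≤ m' → ∀ e, M.t e = w' i → y e = 0 := by
    intro i
    induction i with
    | zero =>
      intro _ e he
      rw [← hyj]
      apply hvert
      · rw [he, hw0']
      · intro i hi
        rw [he]
        exact fun h => hcon i hi 0 (Nat.zero_le _) h.symm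
    | succ i ih =>
      intro hi e he
      obtain ⟨f, hf1, hf2⟩ := hw' i (by omega)
      have hf0 : y f = 0 := ih (by omega) f hf1
      have hfo : ∀ a ≤ m, M.t f ≠ w a := by
        intro a ha
        rw [hf1]
        exact fun h => hcon a ha i (by omega) h.symm
      have h2 : y (M.ι f) = 0 := by rw [(hstep f hfo).2, hf0]
      rw [← h2]
      apply hvert
      · rw [he, hf2]
      · intro a ha
        rw [he]
        exact fun h => hcon a ha (i + 1) hi h.symm
  have hfin := hwalk m' le_rfl ((M.φ ^ l) d) hwm'.symm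
  rw [hyl] at hfin
  exact absurd hfin (by decide)

end Pool.Agent.Helper42.OF4.CR
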